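import Mathlib
import Pool.Agent.Lib.MP_a5c736_co.Defs
import Pool.Agent.Lib.MP_a5c736_co.Proof

set_option autoImplicit false

namespace Pool.Agent.Results.MP_a5c736_co.NotNice

open Pool.Agent.Lib.MP_a5c736_co

/-- For every `k ≥ 4` there is a graph with DP-chromatic number `k` that is not partially
DP-nice. -/
theorem result : ∀ k : ℕ, 4 ≤ k →
    ∃ (V : Type) (_ : Fintype V) (_ : Nonempty V) (G : SimpleGraph V),
      chiDP G = k ∧ ¬ PartiallyDPNice G :=
  exists_not_nice

end Pool.Agent.Results.MP_a5c736_co.NotNice
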